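import Pool.Agent.Helper80.SH.FSdCore
import Pool.Agent.Helper55.SH.FSc

/-!
# MP_506470_co : module FSd, the words `1^L 0 1^L` are not traces for large `L`
-/

namespace SetHom
namespace FS

variable {V : Type*} {G : SimpleGraph V} {K : List V → Prop}

theorem fsd_vertex (h : GdL G K) (hco : ∀ L, CoS G K L) (a b : List V) (x : V)
    (hab : K (a ++ x :: b)) : ∃ v, ¬ G.Adj v x ∧ ∀ y, y ∈ a ∨ y ∈ b → G.Adj v y := by
  obtain ⟨a', x', b', v, ha', hb', hK, h1, h2, h3⟩ := hco (max a.length b.length)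
  have hs : K (a'.take a.length ++ x' :: b'.take b.length) := by
    refine h.sub _ _ hK ?_
    exact (List.take_sublist _ _).append ((List.take_sublist _ _).cons_cons x')
  obtain ⟨φ, hφ⟩ := h.aut _ _ hs hab (by
    simp only [List.length_append, List.length_cons, List.length_take]
    have := le_max_left a.length b.length
    have := le_max_right a.length b.length
    omega)
  rw [List.map_append, List.map_cons] at hφ
  obtain ⟨h4, h5⟩ := List.append_inj hφ (by
    simp only [List.length_map, List.length_take]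
    have := le_max_left a.length b.length
    omega)
  have h6 := (List.cons.inj h5).1
  have h7 := (List.cons.inj h5).2
  refine ⟨φ v, ?_, ?_⟩
  · rw [← h6]
    intro hh
    exact h1 (φ.map_rel_iff.1 hh)
  · rintro y (hy | hy)
    · rw [← h4] at hy
      obtain ⟨z, hz, rfl⟩ := List.mem_map.1 hy
      exact φ.map_rel_iff.2 (h2 z (List.mem_of_mem_take hz))
    · rw [← h7] at hy
      obtain ⟨z, hz, rfl⟩ := List.mem_map.1 hy
      exact φ.map_rel_iff.2 (h3 z (List.mem_of_mem_take hz))

theorem fsd_key (hsh : SetHomogeneous G) (h : GdL G K) {r n : ℕ} (hr : 1 ≤ r) (hn : r + 2 ≤ n)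
    {l : List V} (hl : K l) (hlen : l.length = r * n) (hco : ∀ L, CoS G K L) :
    ∃ c : (Fin r → Fin n) → (Fin r → Fin r → Prop),
    (∀ f f', c f = c f' → ∃ ψ : G ≃g G, (∀ x ∈ l, ψ x ∈ l) ∧
      ∀ x, ((∃ i, ψ x = fsdX l r n hlen (i, f' i)) ↔ ∃ i, x = fsdX l r n hlen (i, f i))) := by
  classical
  have hnd := h.nodup l hl
  have hX := fsdX_inj l hnd r n hlen
  have hmem := fsdX_mem l r n hlen
  have hsurj := fsdX_surj l r n hlen
  set X := fsdX l r n hlen with hXdef
  have hind := h.ind l hl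
  have hv : ∀ p, ∃ v, ¬ G.Adj v (X p) ∧ ∀ q, q ≠ p → G.Adj v (X q) := by
    intro p
    obtain ⟨a, b, hab, hq⟩ := fsd_split l hnd r n hlen p
    obtain ⟨v, h1, h2⟩ := fsd_vertex h hco a b (X p) (by rw [← hab]; exact hl)
    exact ⟨v, h1, fun q hqp => h2 _ (hq q hqp)⟩
  choose v hv1 hv2 using hv
  have hvadj : ∀ p q, G.Adj (v p) (X q) ↔ q ≠ p := fun p q =>
    ⟨fun hh hqp => hv1 p (hqp ▸ hh), hv2 p q⟩
  have hvinj : Function.Injective v := by
    intro p q hpq
    by_contra hne
    exact hv1 q (by rw [← hpq]; exact hv2 p q (Ne.symm hne))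
  have hother : ∀ p : Fin r × Fin n, ∃ q, q ≠ p := by
    intro p
    have h2 : 1 < n := by omega
    by_cases hp : p.2 = ⟨0, by omega⟩
    · refine ⟨(p.1, ⟨1, h2⟩), fun h => ?_⟩
      have := congrArg Prod.snd h
      simp only [hp] at this
      exact absurd (congrArg Fin.val this) (by simp)
    · refine ⟨(p.1, ⟨0, by omega⟩), fun h => ?_⟩
      exact hp (congrArg Prod.snd h).symm
  have hvl : ∀ p, v p ∉ l := by
    intro p hp
    obtain ⟨q, hq⟩ := hother p
    exact hind _ hp _ (hmem q) (hv2 p q hq)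
  -- the sets `Y f`
  let Y : (Fin r → Fin n) → (Fin r × Fin n) ⊕ Fin r → V := fun f =>
    Sum.elim X (fun i => v (i, f i))
  have hYinj : ∀ f, Function.Injective (Y f) := by
    intro f a b hab
    rcases a with p | i <;> rcases b with q | j
    · exact congrArg _ (hX hab)
    · exfalso
      have : X p = v (j, f j) := hab
      exact hvl _ (this ▸ hmem p)
    · exfalso
      have : v (i, f i) = X q := hab
      exact hvl _ (this ▸ hmem q)
    · have : v (i, f i) = v (j, f j) := hab
      exact congrArg _ (congrArg Prod.fst (hvinj this))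
  refine ⟨fun f i j => G.Adj (v (i, f i)) (v (j, f j)), fun f f' hff => ?_⟩
  have hcol : ∀ i j, G.Adj (v (i, f i)) (v (j, f j)) ↔ G.Adj (v (i, f' i)) (v (j, f' j)) :=
    fun i j => iff_of_eq (congrFun (congrFun hff i) j)
  let σ : Fin r × Fin n → Fin r × Fin n := fun p => (p.1, Equiv.swap (f p.1) (f' p.1) p.2)
  have hσinj : Function.Injective σ := by
    intro p q hpq
    have h1 : p.1 = q.1 := (Prod.ext_iff.1 hpq).1
    have h2 : Equiv.swap (f p.1) (f' p.1) p.2 = Equiv.swap (f q.1) (f' q.1) q.2 :=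
      (Prod.ext_iff.1 hpq).2
    rw [h1] at h2
    exact Prod.ext h1 ((Equiv.swap _ _).injective h2)
  have hσf : ∀ i, σ (i, f i) = (i, f' i) := fun i => by simp [σ]
  have hσbij : Function.Bijective σ := Finite.injective_iff_bijective.1 hσinj
  have hσiff : ∀ p i, p ≠ (i, f i) ↔ σ p ≠ (i, f' i) := by
    intro p i
    rw [← hσf i]
    exact hσinj.ne_iff.symm
  obtain ⟨φ, hφ⟩ := fsd_hsh_fun hsh (Y f) (fun a => Y f' (Sum.map σ id a)) (hYinj f)
    ((hYinj f').comp (Function.Injective.sumMap hσinj Function.injective_id)) (by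
      rintro (p | i) (q | j)
      · exact iff_of_false (hind _ (hmem _) _ (hmem _)) (hind _ (hmem _) _ (hmem _))
      · show G.Adj (X p) (v (j, f j)) ↔ G.Adj (X (σ p)) (v (j, f' j))
        rw [G.adj_comm, G.adj_comm (X (σ p)), hvadj, hvadj]
        exact hσiff p j
      · show G.Adj (v (i, f i)) (X q) ↔ G.Adj (v (i, f' i)) (X (σ q))
        rw [hvadj, hvadj]
        exact hσiff q i
      · exact hcol i j)
  have hφ' : ∀ x, φ x ∈ Set.range (Y f') ↔ x ∈ Set.range (Y f) := by
    intro x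
    rw [← hφ x]
    constructor
    · rintro ⟨a, ha⟩
      obtain ⟨b, rfl⟩ : ∃ b, Sum.map σ id b = a := by
        rcases a with p | i
        · obtain ⟨q, rfl⟩ := hσbij.2 p
          exact ⟨Sum.inl q, rfl⟩
        · exact ⟨Sum.inr i, rfl⟩
      exact ⟨b, ha⟩
    · rintro ⟨b, hb⟩
      exact ⟨_, hb⟩
  -- `φ` maps `l` into `l`
  have hmap : ∀ x ∈ l, φ x ∈ l := by
    intro x hx
    by_contra hnot
    obtain ⟨p, rfl⟩ := hsurj x hx
    obtain ⟨a, ha⟩ := (hφ' (X p)).2 ⟨Sum.inl p, rfl⟩
    rcases a with q | i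
    · exact hnot (by rw [← ha]; exact hmem q)
    have ha' : v (i, f' i) = φ (X p) := ha
    -- neighbours of `φ (X p)`
    have hg : ∀ k : Fin n, k ≠ f' i → ∃ j : Fin r, φ.symm (X (i, k)) = v (j, f j) := by
      intro k hk
      have h1 : φ.symm (X (i, k)) ∈ Set.range (Y f) := by
        rw [← hφ']
        exact ⟨Sum.inl (i, k), by simp [Y]⟩
      obtain ⟨b, hb⟩ := h1
      rcases b with q | j
      · exfalso
        have hb' : X q = φ.symm (X (i, k)) := hb
        have h2 : G.Adj (v (i, f' i)) (X (i, k)) := by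
          rw [hvadj]
          intro h3
          exact hk (congrArg Prod.snd h3)
        rw [ha'] at h2
        have h3 : G.Adj (φ (X p)) (φ (X q)) := by
          rw [hb']; simpa using h2
        exact hind _ hx _ (hmem q) (φ.map_rel_iff.1 h3)
      · exact ⟨j, hb.symm⟩
    have : Nonempty (Fin r) := ⟨i⟩
    choose! g hg using hg
    have hcard : ((Finset.univ.erase (f' i)) : Finset (Fin n)).card ≤
        (Finset.univ : Finset (Fin r)).card := by
      refine Finset.card_le_card_of_injOn g (fun _ _ => Finset.mem_coe.2 (Finset.mem_univ _)) ?_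
      intro k hk k' hk' hkk
      have h1 := hg k (by simpa using hk)
      have h2 := hg k' (by simpa using hk')
      rw [hkk] at h1
      have h3 := h1.trans h2.symm
      have h4 := hX (φ.symm.injective h3)
      exact congrArg Prod.snd h4
    rw [Finset.card_erase_of_mem (Finset.mem_univ _), Finset.card_univ, Finset.card_univ,
      Fintype.card_fin, Fintype.card_fin] at hcard
    omega
  -- `φ` preserves `l`
  have hiff : ∀ x, φ x ∈ l ↔ x ∈ l := by
    intro x
    refine ⟨fun hx => ?_, hmap x⟩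
    have hnd' : (l.map φ).Nodup := hnd.map φ.injective
    have hsub : l.map φ ⊆ l := by
      intro x hx
      obtain ⟨y, hy, rfl⟩ := List.mem_map.1 hx
      exact hmap y hy
    have hp := (List.subperm_of_subset hnd' hsub).perm_of_length_le (by simp)
    have := hp.mem_iff.2 hx
    obtain ⟨y, hy, hxy⟩ := List.mem_map.1 this
    rwa [← φ.injective hxy]
  refine ⟨φ, hmap, fun x => ?_⟩
  have hsel : ∀ (f : Fin r → Fin n) (x : V), (∃ i, x = X (i, f i)) ↔
      (x ∈ l ∧ ∃ y ∈ Set.range (Y f), y ∉ l ∧ ¬ G.Adj y x) := by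
    intro f x
    constructor
    · rintro ⟨i, rfl⟩
      exact ⟨hmem _, v (i, f i), ⟨Sum.inr i, rfl⟩, hvl _, hv1 _⟩
    · rintro ⟨hx, y, ⟨a, rfl⟩, hy, hadj⟩
      rcases a with q | i
      · exact absurd (hmem q) hy
      · obtain ⟨p, rfl⟩ := hsurj x hx
        refine ⟨i, ?_⟩
        by_contra hne
        exact hadj (hv2 (i, f i) p (fun h => hne (by rw [h])))
  rw [hsel, hsel, hiff]
  refine and_congr Iff.rfl ?_
  constructor
  · rintro ⟨y, hy, h1, h2⟩
    refine ⟨φ.symm y, ?_, ?_, ?_⟩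
    · rw [← hφ']; simpa using hy
    · rw [← hiff]; simpa using h1
    · intro h3
      apply h2
      have := φ.map_rel_iff.2 h3
      simpa using this
  · rintro ⟨y, hy, h1, h2⟩
    refine ⟨φ y, (hφ' y).2 hy, fun h3 => h1 ((hiff y).1 h3), fun h3 => h2 (φ.map_rel_iff.1 h3)⟩

theorem fsd_not_coS_of (hsh : SetHomogeneous G) (h : GdL G K) {t : ℕ}
    (hcard : ∀ l, K l → 2 * t ≤ l.length →
      {l' | K l' ∧ l'.Perm l}.Finite ∧ {l' | K l' ∧ l'.Perm l}.ncard ≤ l.length ^ (2 * t)) :
    ∃ L, ¬ CoS G K L := by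
  classical
  by_contra hcon
  push Not at hcon
  set r := 2 * t + 1 with hr
  obtain ⟨N, hN⟩ : ∃ N, N = Fintype.card (Fin r → Fin r → Prop) := ⟨_, rfl⟩
  have hN1 : r + 1 ≤ N := by
    rw [hN]
    simp only [Fintype.card_pi, Finset.prod_const, Finset.card_univ, Fintype.card_fin,
      Fintype.card_prop]
    calc r + 1 ≤ 2 ^ r := Nat.lt_two_pow_self
      _ = (2 ^ r) ^ 1 := by simp
      _ ≤ (2 ^ r) ^ r := Nat.pow_le_pow_right (by positivity) (by omega)
  obtain ⟨n, hn⟩ : ∃ n, n = r ^ (2 * t) * N + 1 := ⟨_, rfl⟩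
  have hn2 : r + 2 ≤ n := by
    have : 1 ≤ r ^ (2 * t) := Nat.one_le_pow _ _ (by omega)
    have : N ≤ r ^ (2 * t) * N := Nat.le_mul_of_pos_left _ (by omega)
    omega
  obtain ⟨l, hl, hlen⟩ := h.long (r * n)
  obtain ⟨c, hc⟩ := fsd_key hsh h (by omega) hn2 hl hlen hcon
  have h1 : 2 * t ≤ l.length := by
    rw [hlen]
    calc 2 * t ≤ r := by omega
      _ = r * 1 := by simp
      _ ≤ r * n := Nat.mul_le_mul_left _ (by omega)
  have := fsd_count h hl hlen (hcard l hl h1) c hc
  rw [← hN] at this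
  exact fsd_num t N n hn this

/-- module FSd -/
theorem not_coS (hsh : SetHomogeneous G) (h : GdL G K) {t : ℕ} (ht : ¬ TT K t) :
    ∃ L, ¬ CoS G K L :=
  fsd_not_coS_of hsh h (t := t) fun l hl hlen => card_good_perm h ht l hl hlen

end FS
end SetHom
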