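import Pool.Agent.Helper80.SH.FSdCore
import Pool.Agent.Helper55.SH.FSc

/-!
# MP_506470_co : module FSe, the words `0^L 1 0^L` are not traces for large `L`
-/

namespace SetHom
namespace FS

variable {V : Type*} {G : SimpleGraph V} {K : List V → Prop}

theorem fse_vertex (h : GdL G K) (hco : ∀ L, Sg G K L) (a b : List V) (x : V)
    (hab : K (a ++ x :: b)) : ∃ v, G.Adj v x ∧ ∀ y, y ∈ a ∨ y ∈ b → ¬ G.Adj v y := by
  obtain ⟨a', x', b', v, ha', hb', hK, h1, h2, h3⟩ := hco (max a.length b.length)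
  have hs : K (a'.take a.length ++ x' :: b'.take b.length) := by
    refine h.sub _ _ hK ?_
    exact (List.take_sublist _ _).append ((List.take_sublist _ _).cons_cons x')
  obtain ⟨φ, hφ⟩ := h.aut _ _ hs hab (by
    simp only [List.length_append, List.length_cons, List.length_take]
    have := le_max_left a.length b.length
    have := le_max_right a.length b.length
    omega)
  rw [List.map_append, List.map_cons] at hφ
  obtain ⟨h4, h5⟩ := List.append_inj hφ (by
    simp only [List.length_map, List.length_take]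
    have := le_max_left a.length b.length
    omega)
  have h6 := (List.cons.inj h5).1
  have h7 := (List.cons.inj h5).2
  refine ⟨φ v, ?_, ?_⟩
  · rw [← h6]
    exact φ.map_rel_iff.2 h1
  · rintro y (hy | hy)
    · rw [← h4] at hy
      obtain ⟨z, hz, rfl⟩ := List.mem_map.1 hy
      exact fun hh => h2 z (List.mem_of_mem_take hz) (φ.map_rel_iff.1 hh)
    · rw [← h7] at hy
      obtain ⟨z, hz, rfl⟩ := List.mem_map.1 hy
      exact fun hh => h3 z (List.mem_of_mem_take hz) (φ.map_rel_iff.1 hh)

theorem fse_key (hsh : SetHomogeneous G) (h : GdL G K) {r n : ℕ}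
    {l : List V} (hl : K l) (hlen : l.length = r * n) (hco : ∀ L, Sg G K L) :
    ∃ c : (Fin r → Fin n) → (Fin r → Fin r → Prop) × (Fin r → Prop),
    (∀ f f', c f = c f' → ∃ ψ : G ≃g G, (∀ x ∈ l, ψ x ∈ l) ∧
      ∀ x, ((∃ i, ψ x = fsdX l r n hlen (i, f' i)) ↔ ∃ i, x = fsdX l r n hlen (i, f i))) := by
  classical
  have hnd := h.nodup l hl
  have hX := fsdX_inj l hnd r n hlen
  have hmem := fsdX_mem l r n hlen
  have hsurj := fsdX_surj l r n hlen
  set X := fsdX l r n hlen with hXdef
  have hind := h.ind l hl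
  have hv : ∀ p, ∃ v, G.Adj v (X p) ∧ ∀ q, q ≠ p → ¬ G.Adj v (X q) := by
    intro p
    obtain ⟨a, b, hab, hq⟩ := fsd_split l hnd r n hlen p
    obtain ⟨v, h1, h2⟩ := fse_vertex h hco a b (X p) (by rw [← hab]; exact hl)
    exact ⟨v, h1, fun q hqp => h2 _ (hq q hqp)⟩
  choose v hv1 hv2 using hv
  have hvadj : ∀ p q, G.Adj (v p) (X q) ↔ q = p := fun p q =>
    ⟨fun hh => by_contra fun hne => hv2 p q hne hh, fun hh => hh ▸ hv1 p⟩
  have hvinj : Function.Injective v := by
    intro p q hpq
    have := hv1 p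
    rw [hpq, hvadj] at this
    exact this
  have hvl : ∀ p, v p ∉ l := fun p hp => hind _ hp _ (hmem p) (hv1 p)
  -- the sets `Y f`
  let Y : (Fin r → Fin n) → (Fin r × Fin n) ⊕ Fin r → V := fun f =>
    Sum.elim X (fun i => v (i, f i))
  have hYinj : ∀ f, Function.Injective (Y f) := by
    intro f a b hab
    rcases a with p | i <;> rcases b with q | j
    · exact congrArg _ (hX hab)
    · exfalso
      have : X p = v (j, f j) := hab
      exact hvl _ (this ▸ hmem p)
    · exfalso
      have : v (i, f i) = X q := hab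
      exact hvl _ (this ▸ hmem q)
    · have : v (i, f i) = v (j, f j) := hab
      exact congrArg _ (congrArg Prod.fst (hvinj this))
  let col : (Fin r → Fin n) → (Fin r → Fin r → Prop) := fun f i j =>
    G.Adj (v (i, f i)) (v (j, f j))
  -- automorphisms between sets of the same colour
  have hphi : ∀ f f', col f = col f' → ∃ φ : G ≃g G,
      ∀ x, φ x ∈ Set.range (Y f') ↔ x ∈ Set.range (Y f) := by
    intro f f' hff
    have hcol : ∀ i j, G.Adj (v (i, f i)) (v (j, f j)) ↔ G.Adj (v (i, f' i)) (v (j, f' j)) :=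
      fun i j => iff_of_eq (congrFun (congrFun hff i) j)
    let σ : Fin r × Fin n → Fin r × Fin n := fun p => (p.1, Equiv.swap (f p.1) (f' p.1) p.2)
    have hσinj : Function.Injective σ := by
      intro p q hpq
      have h1 : p.1 = q.1 := (Prod.ext_iff.1 hpq).1
      have h2 : Equiv.swap (f p.1) (f' p.1) p.2 = Equiv.swap (f q.1) (f' q.1) q.2 :=
        (Prod.ext_iff.1 hpq).2
      rw [h1] at h2
      exact Prod.ext h1 ((Equiv.swap _ _).injective h2)
    have hσf : ∀ i, σ (i, f i) = (i, f' i) := fun i => by simp [σ]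
    have hσbij : Function.Bijective σ := Finite.injective_iff_bijective.1 hσinj
    have hσiff : ∀ p i, p = (i, f i) ↔ σ p = (i, f' i) := by
      intro p i
      rw [← hσf i]
      exact hσinj.eq_iff.symm
    obtain ⟨φ, hφ⟩ := fsd_hsh_fun hsh (Y f) (fun a => Y f' (Sum.map σ id a)) (hYinj f)
      ((hYinj f').comp (Function.Injective.sumMap hσinj Function.injective_id)) (by
        rintro (p | i) (q | j)
        · exact iff_of_false (hind _ (hmem _) _ (hmem _)) (hind _ (hmem _) _ (hmem _))
        · show G.Adj (X p) (v (j, f j)) ↔ G.Adj (X (σ p)) (v (j, f' j))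
          rw [G.adj_comm, G.adj_comm (X (σ p)), hvadj, hvadj]
          exact hσiff p j
        · show G.Adj (v (i, f i)) (X q) ↔ G.Adj (v (i, f' i)) (X (σ q))
          rw [hvadj, hvadj]
          exact hσiff q i
        · exact hcol i j)
    refine ⟨φ, fun x => ?_⟩
    rw [← hφ x]
    constructor
    · rintro ⟨a, ha⟩
      obtain ⟨b, rfl⟩ : ∃ b, Sum.map σ id b = a := by
        rcases a with p | i
        · obtain ⟨q, rfl⟩ := hσbij.2 p
          exact ⟨Sum.inl q, rfl⟩
        · exact ⟨Sum.inr i, rfl⟩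
      exact ⟨b, ha⟩
    · rintro ⟨b, hb⟩
      exact ⟨_, hb⟩
  -- a base point for each colour
  by_cases hne : Nonempty (Fin r → Fin n)
  swap
  · exact ⟨fun f => absurd ⟨f⟩ hne, fun f => absurd ⟨f⟩ hne⟩
  obtain ⟨f1⟩ := hne
  have hbase : ∀ k : Fin r → Fin r → Prop, ∃ f0 : Fin r → Fin n, (∃ f, col f = k) → col f0 = k := by
    intro k
    by_cases hk : ∃ f, col f = k
    · obtain ⟨f, hf⟩ := hk
      exact ⟨f, fun _ => hf⟩
    · exact ⟨f1, fun h => absurd h hk⟩
  choose base hbase using hbase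
  have hb : ∀ f, ∃ φ : G ≃g G, ∀ x, φ x ∈ Set.range (Y f) ↔ x ∈ Set.range (Y (base (col f))) :=
    fun f => hphi (base (col f)) f (hbase (col f) ⟨f, rfl⟩)
  choose φ hφ using hb
  let F : (Fin r → Fin n) → Fin r → Prop := fun f i => φ f (X (i, base (col f) i)) ∉ l
  let b : (Fin r → Fin n) → (Fin r → Prop) → Fin r × Fin n → V := fun f0 P p =>
    if p.2 = f0 p.1 ∧ P p.1 then v p else X p
  have hbinj : ∀ f0 P, Function.Injective (b f0 P) := by
    intro f0 P p q hpq
    by_cases hp : p.2 = f0 p.1 ∧ P p.1 <;> by_cases hq : q.2 = f0 q.1 ∧ P q.1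
    · have : v p = v q := by simpa only [b, if_pos hp, if_pos hq] using hpq
      exact hvinj this
    · have : v p = X q := by simpa only [b, if_pos hp, if_neg hq] using hpq
      exact absurd (hmem q) (this ▸ hvl p)
    · have : X p = v q := by simpa only [b, if_neg hp, if_pos hq] using hpq
      exact absurd (hmem p) (this ▸ hvl q)
    · have : X p = X q := by simpa only [b, if_neg hp, if_neg hq] using hpq
      exact hX this
  -- the points of `Y f` outside `l`
  have hout : ∀ f p, φ f (X p) ∉ l → p.2 = base (col f) p.1 ∧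
      φ f (v p) ∈ l := by
    intro f p hp
    obtain ⟨a, ha⟩ := (hφ f (X p)).2 ⟨Sum.inl p, rfl⟩
    rcases a with q | j
    · exact absurd (hmem q) (by rw [show X q = φ f (X p) from ha]; exact hp)
    have ha' : v (j, f j) = φ f (X p) := ha
    have h1 : (φ f).symm (X (j, f j)) ∈ Set.range (Y (base (col f))) := by
      rw [← hφ]
      exact ⟨Sum.inl (j, f j), by simp [Y]⟩
    have h2 : G.Adj ((φ f).symm (X (j, f j))) (X p) := by
      rw [← (φ f).map_rel_iff, RelIso.apply_symm_apply, ← ha']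
      exact (hv1 (j, f j)).symm
    obtain ⟨c, hc⟩ := h1
    rcases c with q | i
    · have hc' : X q = (φ f).symm (X (j, f j)) := hc
      rw [← hc'] at h2
      exact absurd h2 (hind _ (hmem _) _ (hmem _))
    · have hc' : v (i, base (col f) i) = (φ f).symm (X (j, f j)) := hc
      rw [← hc', hvadj] at h2
      refine ⟨by rw [h2], ?_⟩
      rw [h2, hc', RelIso.apply_symm_apply]
      exact hmem _
  have hbl : ∀ f p, φ f (b (base (col f)) (F f) p) ∈ l := by
    intro f p
    by_cases hp : p.2 = base (col f) p.1 ∧ F f p.1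
    · have h1 : b (base (col f)) (F f) p = v p := by simp only [b, if_pos hp]
      rw [h1]
      refine (hout f p ?_).2
      have h2 := hp.2
      have h3 : (p.1, base (col f) p.1) = p := by rw [← hp.1]
      simp only [F] at h2
      rwa [h3] at h2
    · have h1 : b (base (col f)) (F f) p = X p := by simp only [b, if_neg hp]
      rw [h1]
      by_contra hnot
      have h2 := (hout f p hnot).1
      apply hp
      refine ⟨h2, ?_⟩
      have h3 : (p.1, base (col f) p.1) = p := by rw [← h2]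
      simp only [F]
      rwa [h3]
  have hbsurj : ∀ f, ∀ x ∈ l, ∃ p, φ f (b (base (col f)) (F f) p) = x := by
    intro f x hx
    have h1 : ∀ p, ∃ q, X q = φ f (b (base (col f)) (F f) p) := fun p => hsurj _ (hbl f p)
    choose g hg using h1
    have hginj : Function.Injective g := by
      intro p q hpq
      have h2 := (hg p).symm.trans ((congrArg X hpq).trans (hg q))
      exact hbinj _ _ ((φ f).injective h2)
    obtain ⟨q, rfl⟩ := hsurj x hx
    obtain ⟨p, rfl⟩ := (Finite.injective_iff_surjective.1 hginj) q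
    exact ⟨p, (hg p).symm⟩
  refine ⟨fun f => (col f, F f), fun f f' hcc => ?_⟩
  have hc1 : col f = col f' := (Prod.ext_iff.1 hcc).1
  have hc2 : F f = F f' := (Prod.ext_iff.1 hcc).2
  have hmap : ∀ x ∈ l, ((φ f).symm.trans (φ f')) x ∈ l := by
    intro x hx
    obtain ⟨p, rfl⟩ := hbsurj f x hx
    have h1 := hbl f' p
    rw [← hc1, ← hc2] at h1
    simpa using h1
  have hY : ∀ x, ((φ f).symm.trans (φ f')) x ∈ Set.range (Y f') ↔ x ∈ Set.range (Y f) := by
    intro x
    have h1 := hφ f' ((φ f).symm x)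
    have h2 := hφ f ((φ f).symm x)
    rw [RelIso.apply_symm_apply] at h2
    rw [← hc1] at h1
    rw [h2]
    exact h1
  generalize hψ : (φ f).symm.trans (φ f') = ψ at hmap hY
  have hiff : ∀ x, ψ x ∈ l ↔ x ∈ l := by
    intro x
    refine ⟨fun hx => ?_, hmap x⟩
    have hnd' : (l.map ψ).Nodup := hnd.map ψ.injective
    have hsub : l.map ψ ⊆ l := by
      intro x hx
      obtain ⟨y, hy, rfl⟩ := List.mem_map.1 hx
      exact hmap y hy
    have hp := (List.subperm_of_subset hnd' hsub).perm_of_length_le (by simp)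
    have := hp.mem_iff.2 hx
    obtain ⟨y, hy, hxy⟩ := List.mem_map.1 this
    rwa [← ψ.injective hxy]
  refine ⟨ψ, hmap, fun x => ?_⟩
  have hsel : ∀ (f : Fin r → Fin n) (x : V), (∃ i, x = X (i, f i)) ↔
      (x ∈ l ∧ ∃ y ∈ Set.range (Y f), G.Adj y x) := by
    intro f x
    constructor
    · rintro ⟨i, rfl⟩
      exact ⟨hmem _, v (i, f i), ⟨Sum.inr i, rfl⟩, hv1 _⟩
    · rintro ⟨hx, y, ⟨a, rfl⟩, hadj⟩
      rcases a with q | i
      · exact absurd hadj (hind _ (hmem q) _ hx)
      · obtain ⟨p, rfl⟩ := hsurj x hx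
        refine ⟨i, ?_⟩
        have : p = (i, f i) := (hvadj _ _).1 hadj
        rw [this]
  rw [hsel, hsel, hiff]
  refine and_congr Iff.rfl ?_
  constructor
  · rintro ⟨y, hy, h2⟩
    refine ⟨ψ.symm y, ?_, ?_⟩
    · rw [← hY]; simpa using hy
    · rw [← ψ.map_rel_iff]
      simpa using h2
  · rintro ⟨y, hy, h2⟩
    exact ⟨ψ y, (hY y).2 hy, ψ.map_rel_iff.2 h2⟩

theorem fse_not_sg_of (hsh : SetHomogeneous G) (h : GdL G K) {t : ℕ}
    (hcard : ∀ l, K l → 2 * t ≤ l.length →
      {l' | K l' ∧ l'.Perm l}.Finite ∧ {l' | K l' ∧ l'.Perm l}.ncard ≤ l.length ^ (2 * t)) :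
    ∃ L, ¬ Sg G K L := by
  classical
  by_contra hcon
  push Not at hcon
  set r := 2 * t + 1 with hr
  obtain ⟨N, hN⟩ : ∃ N, N = Fintype.card ((Fin r → Fin r → Prop) × (Fin r → Prop)) := ⟨_, rfl⟩
  obtain ⟨n, hn⟩ : ∃ n, n = r ^ (2 * t) * N + 1 := ⟨_, rfl⟩
  obtain ⟨l, hl, hlen⟩ := h.long (r * n)
  obtain ⟨c, hc⟩ := fse_key hsh h hl hlen hcon
  have h1 : 2 * t ≤ l.length := by
    rw [hlen]
    calc 2 * t ≤ r := by omega
      _ = r * 1 := by simp
      _ ≤ r * n := Nat.mul_le_mul_left _ (by omega)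
  have := fsd_count h hl hlen (hcard l hl h1) c hc
  rw [← hN] at this
  exact fsd_num t N n hn this

/-- module FSe -/
theorem not_sg (hsh : SetHomogeneous G) (h : GdL G K) {t : ℕ} (ht : ¬ TT K t) :
    ∃ L, ¬ Sg G K L :=
  fse_not_sg_of hsh h (t := t) fun l hl hlen => card_good_perm h ht l hl hlen

end FS
end SetHom
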