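import Pool.Agent.Helper25.SH.Defs2

/-!
# MP_506470_co, finite clique number, module F1
-/

namespace SetHom

variable {V : Type}

theorem f1_symm_adj {G : SimpleGraph V} (φ : G ≃g G) (x y : V) :
    G.Adj (φ x) y ↔ G.Adj x (φ.symm y) := by
  conv_lhs => rw [← φ.apply_symm_apply y]
  exact φ.map_adj_iff

/-- independent subsets of neighbourhoods -/
theorem f1_indep {G : SimpleGraph V} (tf : TF G) {v : V} {I : Finset V}
    (h : ∀ x ∈ I, G.Adj v x) : Indep G I := by
  intro x hx y hy hxy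
  exact tf v x y (h x hx) hxy (h y hy)

theorem f1_common {G : SimpleGraph V} [Nonempty V] (hW : WSH G) (tf : TF G)
    (hinf : ∀ v, (G.neighborSet v).Infinite) (I : Finset V) (hI : Indep G I) :
    ∃ v, ∀ x ∈ I, G.Adj v x := by
  classical
  rcases Nat.lt_or_ge I.card 2 with h | h
  · rcases Nat.eq_zero_or_pos I.card with h0 | h0
    · rw [Finset.card_eq_zero] at h0
      subst h0
      exact ⟨Classical.arbitrary V, by simp⟩
    · obtain ⟨x, rfl⟩ := Finset.card_eq_one.1 (by omega : I.card = 1)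
      obtain ⟨v, hv⟩ := (hinf x).nonempty
      refine ⟨v, fun y hy => ?_⟩
      rw [Finset.mem_singleton.1 hy]
      exact SimpleGraph.Adj.symm hv
  · let v : V := Classical.arbitrary V
    obtain ⟨S, hS, hc⟩ := (hinf v).exists_subset_card_eq I.card
    have hSi : Indep G S := f1_indep tf (v := v) fun x hx => hS hx
    obtain ⟨φ, hφ⟩ := hW.indep hSi hI hc (by omega)
    refine ⟨φ v, fun x hx => ?_⟩
    have hx' : x ∈ φ '' (S : Set V) := by
      rw [hφ]
      exact hx
    obtain ⟨y, hy, rfl⟩ := hx'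
    exact φ.map_adj_iff.2 (hS hy)

/-- the difference of neighbourhoods -/
def f1D (G : SimpleGraph V) (x y : V) : Set V := {z | G.Adj x z ∧ ¬ G.Adj y z}

theorem f1_map_D {G : SimpleGraph V} (φ : G ≃g G) (x y : V) :
    φ '' f1D G x y = f1D G (φ x) (φ y) := by
  ext z
  constructor
  · rintro ⟨w, ⟨h1, h2⟩, rfl⟩
    exact ⟨φ.map_adj_iff.2 h1, fun h => h2 (φ.map_adj_iff.1 h)⟩
  · rintro ⟨h1, h2⟩
    refine ⟨φ.symm z, ⟨(f1_symm_adj φ x z).1 h1, fun h => h2 ((f1_symm_adj φ y z).2 h)⟩, ?_⟩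
    simp

theorem f1_map_C {G : SimpleGraph V} (φ : G ≃g G) (x y : V) :
    φ '' {z | G.Adj x z ∧ G.Adj y z} = {z | G.Adj (φ x) z ∧ G.Adj (φ y) z} := by
  ext z
  constructor
  · rintro ⟨w, ⟨h1, h2⟩, rfl⟩
    exact ⟨φ.map_adj_iff.2 h1, φ.map_adj_iff.2 h2⟩
  · rintro ⟨h1, h2⟩
    refine ⟨φ.symm z, ⟨(f1_symm_adj φ x z).1 h1, (f1_symm_adj φ y z).1 h2⟩, ?_⟩
    simp

/-- if some non-adjacent vertices are twins, the graph is complete multipartite -/
theorem f1_twins {G : SimpleGraph V} (hW : WSH G) {u v : V} (huv : u ≠ v) (hn : ¬ G.Adj u v)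
    (h : ∀ x, G.Adj u x ↔ G.Adj v x) : CMP G Set.univ := by
  have key : ∀ x y, x ≠ y → ¬ G.Adj x y → ∀ z, G.Adj x z → G.Adj y z := by
    intro x y hxy hxy' z hz
    obtain ⟨φ, ⟨h1, h2⟩ | ⟨h1, h2⟩⟩ := hW.pair huv hxy hn hxy'
    · rw [← h1, f1_symm_adj, h] at hz
      rw [← h2, f1_symm_adj]
      exact hz
    · rw [← h2, f1_symm_adj, ← h] at hz
      rw [← h1, f1_symm_adj]
      exact hz
  intro a _ b _ c _ h1 h2 h3
  by_cases hab : a = b
  · subst hab
    exact h2 h3
  · exact h2 (key a b hab h1 c h3)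

theorem f1_diff {G : SimpleGraph V} (hW : WSH G) (tf : TF G)
    (hinf : ∀ v, (G.neighborSet v).Infinite)
    (hnt : ∀ u v, u ≠ v → ¬ G.Adj u v → ¬ ∀ x, G.Adj u x ↔ G.Adj v x) (u v : V) (huv : u ≠ v)
    (hn : ¬ G.Adj u v) : (f1D G u v).Infinite := by
  by_contra hcon
  rw [Set.not_infinite] at hcon
  -- for all pairs
  have hstar : ∀ x y, x ≠ y → ¬ G.Adj x y → (f1D G x y).Finite ∨ (f1D G y x).Finite := by
    intro x y hxy hxy'
    obtain ⟨φ, ⟨h1, h2⟩ | ⟨h1, h2⟩⟩ := hW.pair huv hxy hn hxy'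
    · left
      rw [← h1, ← h2, ← f1_map_D]
      exact hcon.image _
    · right
      rw [← h1, ← h2, ← f1_map_D]
      exact hcon.image _
  -- the chosen pair
  obtain ⟨a, w, haw, hnaw, hfin, x, hwx, hax⟩ : ∃ a w, a ≠ w ∧ ¬ G.Adj a w ∧
      (f1D G a w).Finite ∧ ∃ x, G.Adj w x ∧ ¬ G.Adj a x := by
    by_cases h1 : ∃ x, G.Adj v x ∧ ¬ G.Adj u x
    · exact ⟨u, v, huv, hn, hcon, h1⟩
    · push Not at h1
      refine ⟨v, u, huv.symm, fun e => hn e.symm, ?_, ?_⟩
      · have : f1D G v u = ∅ := by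
          ext z
          simp only [f1D, Set.mem_ofPred_eq, Set.mem_empty_iff_false, iff_false, not_and, not_not]
          exact h1 z
        rw [this]
        exact Set.finite_empty
      · by_contra h2
        push Not at h2
        exact hnt u v huv hn fun x => ⟨h2 x, h1 x⟩
  have hxa : x ≠ a := by
    rintro rfl
    exact hnaw hwx.symm
  rcases hstar a x hxa.symm hax with h1 | h1
  · apply hinf a
    refine (h1.union hfin).subset fun z hz => ?_
    have hz' : G.Adj a z := hz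
    by_cases h2 : G.Adj x z
    · right
      exact ⟨hz', fun h3 => tf w x z hwx h2 h3⟩
    · left
      exact ⟨hz', h2⟩
  · apply hinf x
    refine (h1.union hfin).subset fun z hz => ?_
    have hz' : G.Adj x z := hz
    by_cases h2 : G.Adj a z
    · right
      exact ⟨h2, fun h3 => tf w x z hwx hz' h3⟩
    · left
      exact ⟨hz', h2⟩

theorem base_of {G : SimpleGraph V} [Nonempty V] (hW : WSH G) (tf : TF G)
    (hinf : ∀ v, (G.neighborSet v).Infinite) : CMP G Set.univ ∨ Base G := by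
  classical
  by_cases htw : ∃ u v, u ≠ v ∧ ¬ G.Adj u v ∧ ∀ x, G.Adj u x ↔ G.Adj v x
  · obtain ⟨u, v, h1, h2, h3⟩ := htw
    exact Or.inl (f1_twins hW h1 h2 h3)
  right
  have hnt : ∀ u v, u ≠ v → ¬ G.Adj u v → ¬ ∀ x, G.Adj u x ↔ G.Adj v x :=
    fun u v h1 h2 h3 => htw ⟨u, v, h1, h2, h3⟩
  have hcom := f1_common hW tf hinf
  have hdiff := f1_diff hW tf hinf hnt
  -- intersections
  have hinter : ∀ u v, u ≠ v → ¬ G.Adj u v → {x | G.Adj u x ∧ G.Adj v x}.Infinite := by
    intro u v huv hn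
    by_contra hcon
    rw [Set.not_infinite] at hcon
    obtain ⟨J, hJ, hJc⟩ := (hdiff v u huv.symm fun e => hn e.symm).exists_subset_card_eq
      ({x | G.Adj u x ∧ G.Adj v x}.ncard + 1)
    have hJv : ∀ x ∈ J, G.Adj v x := fun x hx => (hJ hx).1
    have hJu : ∀ x ∈ J, ¬ G.Adj u x := fun x hx => (hJ hx).2
    have hind : Indep G (insert u J) := by
      intro x hx y hy hxy
      rcases Finset.mem_insert.1 hx with h1 | h1 <;> rcases Finset.mem_insert.1 hy with h2 | h2
      · rw [h1, h2] at hxy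
        exact G.loopless.irrefl _ hxy
      · rw [h1] at hxy
        exact hJu y h2 hxy
      · rw [h2] at hxy
        exact hJu x h1 hxy.symm
      · exact f1_indep tf hJv x h1 y h2 hxy
    obtain ⟨w, hw⟩ := hcom _ hind
    have hwu : G.Adj w u := hw u (Finset.mem_insert_self _ _)
    have hwJ : ∀ x ∈ J, G.Adj w x := fun x hx => hw x (Finset.mem_insert_of_mem hx)
    have hwv : w ≠ v := by
      rintro rfl
      exact hn hwu.symm
    obtain ⟨x, hx⟩ : J.Nonempty := by
      rw [← Finset.card_pos]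
      omega
    have hnwv : ¬ G.Adj w v := fun e => tf w v x e (hJv x hx) (hwJ x hx)
    obtain ⟨φ, hφ⟩ := hW.pair huv hwv hn hnwv
    have hsub : (J : Set V) ⊆ φ '' {x | G.Adj u x ∧ G.Adj v x} := by
      rw [f1_map_C]
      intro y hy
      rcases hφ with ⟨h1, h2⟩ | ⟨h1, h2⟩
      · rw [h1, h2]
        exact ⟨hwJ y hy, hJv y hy⟩
      · rw [h1, h2]
        exact ⟨hJv y hy, hwJ y hy⟩
    have h1 := Set.ncard_le_ncard hsub (hcon.image _)
    have h2 := Set.ncard_image_le (f := φ) hcon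
    rw [Set.ncard_coe_finset, hJc] at h1
    omega
  refine ⟨hW, tf, hinf, hinter, hdiff, ?_, inferInstance⟩
  -- common neighbours
  by_contra hcon
  push Not at hcon
  let P : ℕ → Prop := fun c => ∃ K : Finset V, Indep G K ∧ 2 ≤ K.card ∧
    {v | ∀ x ∈ K, G.Adj v x}.Finite ∧ {v | ∀ x ∈ K, G.Adj v x}.ncard = c
  have hex : ∃ c, P c := by
    obtain ⟨K, hK, hKf⟩ := hcon
    refine ⟨_, K, hK, ?_, hKf, rfl⟩
    by_contra hlt
    rcases Nat.eq_zero_or_pos K.card with h0 | h0
    · rw [Finset.card_eq_zero] at h0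
      subst h0
      apply hinf (Classical.arbitrary V)
      exact hKf.subset fun z _ => by simp
    · obtain ⟨x, rfl⟩ := Finset.card_eq_one.1 (by omega : K.card = 1)
      apply hinf x
      refine hKf.subset fun z hz => ?_
      intro y hy
      rw [Finset.mem_singleton.1 hy]
      exact SimpleGraph.Adj.symm hz
  obtain ⟨K, hK, hK2, hKf, hKc⟩ := Nat.find_spec hex
  have hsharp : ∀ c, (∀ x ∈ K, G.Adj c x) → ∀ z, z ∉ K → (∀ x ∈ K, ¬ G.Adj z x) →
      G.Adj c z := by
    intro c hc z hz hzK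
    have hind : Indep G (insert z K) := by
      intro x hx y hy hxy
      rcases Finset.mem_insert.1 hx with h1 | h1 <;> rcases Finset.mem_insert.1 hy with h2 | h2
      · rw [h1, h2] at hxy
        exact G.loopless.irrefl _ hxy
      · rw [h1] at hxy
        exact hzK y h2 hxy
      · rw [h2] at hxy
        exact hzK x h1 hxy.symm
      · exact hK x h1 y h2 hxy
    have hsub : {v | ∀ x ∈ insert z K, G.Adj v x} ⊆ {v | ∀ x ∈ K, G.Adj v x} :=
      fun v hv x hx => hv x (Finset.mem_insert_of_mem hx)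
    have hP : P {v | ∀ x ∈ insert z K, G.Adj v x}.ncard :=
      ⟨insert z K, hind, by rw [Finset.card_insert_of_notMem hz]; omega, hKf.subset hsub, rfl⟩
    have hle := Nat.find_min' hex hP
    have heq := Set.eq_of_subset_of_ncard_le hsub (by rw [hKc]; exact hle) hKf
    have hc' : c ∈ {v | ∀ x ∈ insert z K, G.Adj v x} := by
      rw [heq]
      exact hc
    exact hc' z (Finset.mem_insert_self _ _)
  -- a contradiction
  obtain ⟨c, hc, z, hz, hcz⟩ := (hinf (Classical.arbitrary V)).nontrivial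
  have hncz : ¬ G.Adj c z := fun e => tf _ c z hc e hz
  obtain ⟨K', hK', hKc'⟩ := (hdiff c z hcz hncz).exists_subset_card_eq K.card
  have hcK' : ∀ x ∈ K', G.Adj c x := fun x hx => (hK' hx).1
  have hzK' : ∀ x ∈ K', ¬ G.Adj z x := fun x hx => (hK' hx).2
  obtain ⟨φ, hφ⟩ := hW.indep hK (f1_indep tf hcK') hKc'.symm hK2
  have hmem : ∀ x, x ∈ K → φ x ∈ K' := by
    intro x hx
    have : φ x ∈ φ '' (K : Set V) := Set.mem_image_of_mem φ hx
    rw [hφ] at this
    exact this
  have hznot : z ∉ K' := fun h => hncz (hcK' z h)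
  apply hncz
  have h1 := hsharp (φ.symm c)
    (fun x hx => by
      have h2 := hcK' _ (hmem x hx)
      rw [← φ.map_adj_iff, φ.apply_symm_apply]
      exact h2) (φ.symm z)
    (fun h => hznot (by simpa using hmem _ h))
    (fun x hx h => by
      apply hzK' _ (hmem x hx)
      rw [← φ.map_adj_iff, φ.apply_symm_apply] at h
      exact h)
  rw [← φ.map_adj_iff, φ.apply_symm_apply, φ.apply_symm_apply] at h1
  exact h1

end SetHom
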