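import Pool.Agent.Helper90.SH.FSDefs

/-!
# MP_506470_co : common tools for the modules FSd and FSe
-/

namespace SetHom
namespace FS

variable {V : Type*} {G : SimpleGraph V} {K : List V → Prop}

/-- `SetHomogeneous` for injective families. -/
theorem fsd_hsh_fun {ι : Type*} [Fintype ι] (hsh : SetHomogeneous G) (y y' : ι → V)
    (hy : Function.Injective y) (hy' : Function.Injective y')
    (hadj : ∀ a b, G.Adj (y a) (y b) ↔ G.Adj (y' a) (y' b)) :
    ∃ φ : G ≃g G, ∀ x, φ x ∈ Set.range y' ↔ x ∈ Set.range y := by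
  classical
  let f : ι ≃ {x // x ∈ (Finset.univ.image y : Finset V)} :=
    (Equiv.ofInjective y hy).trans (Equiv.subtypeEquivRight fun x => by simp)
  let g : ι ≃ {x // x ∈ (Finset.univ.image y' : Finset V)} :=
    (Equiv.ofInjective y' hy').trans (Equiv.subtypeEquivRight fun x => by simp)
  have hf : ∀ i, ((f i).1 : V) = y i := fun i => rfl
  have hg : ∀ i, ((g i).1 : V) = y' i := fun i => rfl
  let e : {x // x ∈ (Finset.univ.image y : Finset V)} ≃
      {x // x ∈ (Finset.univ.image y' : Finset V)} := f.symm.trans g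
  have he : ∀ i, ((e (f i)).1 : V) = y' i := by
    intro i
    simp only [e, Equiv.trans_apply, Equiv.symm_apply_apply, hg]
  obtain ⟨φ, hφ⟩ := hsh (Finset.univ.image y) (Finset.univ.image y') ⟨{
    toEquiv := e
    map_rel_iff' := by
      intro a b
      obtain ⟨i, rfl⟩ := f.surjective a
      obtain ⟨j, rfl⟩ := f.surjective b
      show G.Adj (e (f i)).1 (e (f j)).1 ↔ G.Adj (f i).1 (f j).1
      rw [he, he, hf, hf]
      exact (hadj i j).symm }⟩
  refine ⟨φ, fun x => ?_⟩
  have h1 : φ x ∈ ((Finset.univ.image y' : Finset V) : Set V) ↔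
      x ∈ ((Finset.univ.image y : Finset V) : Set V) := by
    rw [← hφ]
    exact φ.injective.mem_set_image
  simpa using h1

/-- The points of a list of length `r * n`, indexed by pairs. -/
def fsdX (l : List V) (r n : ℕ) (hlen : l.length = r * n) (p : Fin r × Fin n) : V :=
  l.get (Fin.cast hlen.symm (finProdFinEquiv p))

theorem fsdX_mem (l : List V) (r n : ℕ) (hlen : l.length = r * n) (p : Fin r × Fin n) :
    fsdX l r n hlen p ∈ l := List.get_mem _ _

theorem fsdX_inj (l : List V) (hnd : l.Nodup) (r n : ℕ) (hlen : l.length = r * n) :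
    Function.Injective (fsdX l r n hlen) := by
  intro p q hpq
  have h1 := (List.nodup_iff_injective_get.1 hnd) hpq
  have h2 := Fin.cast_injective _ h1
  exact finProdFinEquiv.injective h2

theorem fsdX_surj (l : List V) (r n : ℕ) (hlen : l.length = r * n) (x : V) (hx : x ∈ l) :
    ∃ p, fsdX l r n hlen p = x := by
  obtain ⟨i, rfl⟩ := List.get_of_mem hx
  refine ⟨finProdFinEquiv.symm (Fin.cast hlen i), ?_⟩
  unfold fsdX
  rw [Equiv.apply_symm_apply]
  rfl

/-- The common counting lemma. -/
theorem fsd_count (h : GdL G K) {t r n : ℕ} {l : List V} (hl : K l) (hlen : l.length = r * n)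
    (hcard : {l' | K l' ∧ l'.Perm l}.Finite ∧ {l' | K l' ∧ l'.Perm l}.ncard ≤ l.length ^ (2 * t))
    {κ : Type*} [Fintype κ] (c : (Fin r → Fin n) → κ)
    (hc : ∀ f f', c f = c f' → ∃ ψ : G ≃g G, (∀ x ∈ l, ψ x ∈ l) ∧
      ∀ x, ((∃ i, ψ x = fsdX l r n hlen (i, f' i)) ↔ ∃ i, x = fsdX l r n hlen (i, f i))) :
    n ^ r ≤ (r * n) ^ (2 * t) * Fintype.card κ := by
  classical
  obtain ⟨hfin, hle⟩ := hcard
  rw [hlen] at hle
  have hnd := h.nodup l hl
  have hX := fsdX_inj l hnd r n hlen
  have h0 : (Finset.univ : Finset (Fin r → Fin n)).card ≤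
      (r * n) ^ (2 * t) * (Finset.univ : Finset κ).card := by
    refine Finset.card_le_mul_card_image_of_maps_to (f := c) (fun a _ => Finset.mem_univ _) _ ?_
    intro k _
    rcases Finset.eq_empty_or_nonempty
      (Finset.univ.filter fun f : Fin r → Fin n => c f = k) with he | ⟨f1, hf1⟩
    · rw [he]; simp
    · rw [Finset.mem_filter] at hf1
      have hc1 : ∀ f : Fin r → Fin n, ∃ ψ : G ≃g G, c f = k → (∀ x ∈ l, ψ x ∈ l) ∧
          ∀ x, ((∃ i, ψ x = fsdX l r n hlen (i, f i)) ↔ ∃ i, x = fsdX l r n hlen (i, f1 i)) := by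
        intro f
        by_cases hf : c f = k
        · obtain ⟨ψ, h1, h2⟩ := hc f1 f (hf1.2.trans hf.symm)
          exact ⟨ψ, fun _ => ⟨h1, h2⟩⟩
        · exact ⟨RelIso.refl _, fun h => absurd h hf⟩
      choose ψ hψ using hc1
      have hcard2 : hfin.toFinset.card ≤ (r * n) ^ (2 * t) := by
        rw [Set.ncard_eq_toFinset_card _ hfin] at hle
        exact hle
      refine le_trans ?_ hcard2
      refine Finset.card_le_card_of_injOn (fun f => l.map (ψ f)) ?_ ?_
      · intro f hf
        have hf' : c f = k := by simpa using hf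
        obtain ⟨h1, h2⟩ := hψ f hf'
        rw [Set.Finite.coe_toFinset]
        refine ⟨h.img _ _ hl, ?_⟩
        have hnd' : (l.map (ψ f)).Nodup := hnd.map (ψ f).injective
        have hsub : l.map (ψ f) ⊆ l := by
          intro x hx
          obtain ⟨y, hy, rfl⟩ := List.mem_map.1 hx
          exact h1 y hy
        exact (List.subperm_of_subset hnd' hsub).perm_of_length_le (by simp)
      · intro f hf f' hf' heq
        have hf2 : c f = k := by simpa using hf
        have hf2' : c f' = k := by simpa using hf'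
        obtain ⟨h1, h2⟩ := hψ f hf2
        obtain ⟨h1', h2'⟩ := hψ f' hf2'
        have heq' : ∀ x ∈ l, ψ f x = ψ f' x := List.map_inj_left.1 heq
        funext i
        have h3 := (h2 ((ψ f).symm (fsdX l r n hlen (i, f i)))).1 ⟨i, by simp⟩
        obtain ⟨j, hj⟩ := h3
        have h4 := (h2' ((ψ f).symm (fsdX l r n hlen (i, f i)))).2 ⟨j, hj⟩
        obtain ⟨j', hj'⟩ := h4
        have h5 : ψ f' ((ψ f).symm (fsdX l r n hlen (i, f i))) = fsdX l r n hlen (i, f i) := by
          rw [← heq' _ (by rw [hj]; exact fsdX_mem _ _ _ _ _)]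
          simp
        rw [h5] at hj'
        have h6 := hX hj'
        simp only [Prod.mk.injEq] at h6
        obtain ⟨rfl, h7⟩ := h6
        exact h7
  simpa using h0

/-- The final numerical contradiction. -/
theorem fsd_num (t N : ℕ) (n : ℕ) (hn : n = (2 * t + 1) ^ (2 * t) * N + 1)
    (hle : n ^ (2 * t + 1) ≤ ((2 * t + 1) * n) ^ (2 * t) * N) : False := by
  have hpos : 0 < n ^ (2 * t) := by
    apply pow_pos; omega
  rw [pow_succ, mul_pow] at hle
  have h1 : n ^ (2 * t) * n ≤ n ^ (2 * t) * ((2 * t + 1) ^ (2 * t) * N) := by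
    calc n ^ (2 * t) * n ≤ (2 * t + 1) ^ (2 * t) * n ^ (2 * t) * N := hle
      _ = _ := by ring
  have h2 := Nat.le_of_mul_le_mul_left h1 hpos
  omega

/-- Splitting a list at the position of a point. -/
theorem fsd_split (l : List V) (hnd : l.Nodup) (r n : ℕ) (hlen : l.length = r * n)
    (p : Fin r × Fin n) :
    ∃ a b, l = a ++ fsdX l r n hlen p :: b ∧ ∀ q, q ≠ p → fsdX l r n hlen q ∈ a ∨
      fsdX l r n hlen q ∈ b := by
  obtain ⟨a, b, hab⟩ := List.append_of_mem (fsdX_mem l r n hlen p)
  refine ⟨a, b, hab, fun q hq => ?_⟩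
  have h1 : fsdX l r n hlen q ∈ a ++ fsdX l r n hlen p :: b := by
    rw [← hab]; exact fsdX_mem l r n hlen q
  rw [List.mem_append, List.mem_cons] at h1
  rcases h1 with h1 | h1 | h1
  · exact Or.inl h1
  · exact absurd (fsdX_inj l hnd r n hlen h1) hq
  · exact Or.inr h1

end FS
end SetHom
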